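import Pool.Agent.H313PC.Prod

/-!
# The multiples of the points of the moment curve over a prime field
-/

set_option autoImplicit false

open Finset Matrix

namespace Pool.Agent.H313PC

/-- the point `(1, x, …, x ^ (k - 1))` -/
def vx (p k : ℕ) (x : ZMod p) : Fin k → ZMod p := fun i => x ^ (i : ℕ)

open Classical in
/-- the nonzero multiples of the points `(1, x, …, x ^ (k - 1))` -/
noncomputable def TT (p k : ℕ) [Fact p.Prime] : Finset (Fin k → ZMod p) :=
  ((univ.erase (0 : ZMod p)) ×ˢ (univ : Finset (ZMod p))).image (fun z => z.1 • vx p k z.2)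

section

variable {p k : ℕ} [Fact p.Prime]

theorem TT_inj (hk : 2 ≤ k) {c c' x x' : ZMod p} (hc : c ≠ 0)
    (h : c • vx p k x = c' • vx p k x') : c = c' ∧ x = x' := by
  have h0 := congrFun h ⟨0, by omega⟩
  have h1 := congrFun h ⟨1, by omega⟩
  simp only [Pi.smul_apply, vx, pow_zero, pow_one, smul_eq_mul, mul_one] at h0 h1
  subst h0
  exact ⟨rfl, mul_left_cancel₀ hc h1⟩

theorem sum_TT (hk : 2 ≤ k) {R : Type} [AddCommMonoid R] (F : (Fin k → ZMod p) → R) :
    ∑ s ∈ TT p k, F s = ∑ x, ∑ c ∈ open Classical in univ.erase (0 : ZMod p), F (c • vx p k x) := by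
  classical
  rw [TT, Finset.sum_image, Finset.sum_product_right]
  · rintro ⟨c, x⟩ hz ⟨c', x'⟩ _ h
    have hz' := (Finset.mem_product.1 (Finset.mem_coe.1 hz)).1
    obtain ⟨h1, h2⟩ := TT_inj hk (Finset.ne_of_mem_erase hz') h
    exact Prod.ext h1 h2

theorem card_TT (hk : 2 ≤ k) : (TT p k).card = p * (p - 1) := by
  classical
  rw [Finset.card_eq_sum_ones, sum_TT hk]
  simp only [Finset.sum_const, smul_eq_mul, mul_one]
  rw [Finset.card_erase_of_mem (Finset.mem_univ _), Finset.card_univ, ZMod.card]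

theorem zero_notMem_TT (hk : 2 ≤ k) : (0 : Fin k → ZMod p) ∉ TT p k := by
  classical
  rw [TT, Finset.mem_image]
  rintro ⟨⟨c, x⟩, hz, h⟩
  have hc := Finset.ne_of_mem_erase (Finset.mem_product.1 hz).1
  have h0 := congrFun h ⟨0, by omega⟩
  simp only [Pi.smul_apply, vx, pow_zero, smul_eq_mul, mul_one, Pi.zero_apply] at h0
  exact hc h0

theorem neg_mem_TT {s : Fin k → ZMod p} (hs : s ∈ TT p k) : -s ∈ TT p k := by
  classical
  rw [TT, Finset.mem_image] at hs ⊢
  obtain ⟨⟨c, x⟩, hz, rfl⟩ := hs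
  have hc := Finset.ne_of_mem_erase (Finset.mem_product.1 hz).1
  refine ⟨(-c, x), Finset.mem_product.2 ⟨Finset.mem_erase.2 ⟨neg_ne_zero.2 hc,
    Finset.mem_univ _⟩, Finset.mem_univ _⟩, ?_⟩
  exact neg_smul _ _

theorem TT_nonempty : (TT p k).Nonempty := by
  classical
  refine ⟨(1 : ZMod p) • vx p k 0, ?_⟩
  rw [TT, Finset.mem_image]
  exact ⟨(1, 0), Finset.mem_product.2 ⟨Finset.mem_erase.2 ⟨one_ne_zero, Finset.mem_univ _⟩,
    Finset.mem_univ _⟩, rfl⟩

/-- `k` different points of the curve span the space -/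
theorem span_vx (e : Fin k → ZMod p) (he : Function.Injective e) (v : Fin k → ZMod p) :
    ∃ c : Fin k → ZMod p, v = ∑ i, c i • vx p k (e i) := by
  have hdet : (Matrix.vandermonde e).det ≠ 0 := Matrix.det_vandermonde_ne_zero_iff.2 he
  refine ⟨v ᵥ* (Matrix.vandermonde e)⁻¹, ?_⟩
  have h1 : (v ᵥ* (Matrix.vandermonde e)⁻¹) ᵥ* Matrix.vandermonde e = v := by
    rw [Matrix.vecMul_vecMul, Matrix.nonsing_inv_mul _ (isUnit_iff_ne_zero.2 hdet),
      Matrix.vecMul_one]
  conv_lhs => rw [← h1]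
  funext j
  rw [Matrix.vecMul, dotProduct, Finset.sum_apply]
  rfl

/-- a nontrivial character is trivial on fewer than `k` lines -/
theorem card_lines (χ : AddChar (Fin k → ZMod p) ℂ) (hχ : χ ≠ 0) :
    (open Classical in univ.filter (fun x : ZMod p => ∀ c : ZMod p, χ (c • vx p k x) = 1)).card < k := by
  classical
  by_contra hcon
  push Not at hcon
  apply hχ
  obtain ⟨e⟩ : Nonempty (Fin k ↪ {x : ZMod p // ∀ c : ZMod p, χ (c • vx p k x) = 1}) := by
    apply Function.Embedding.nonempty_of_card_le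
    rw [Fintype.card_fin, Fintype.card_subtype]
    exact hcon
  ext v
  obtain ⟨c, rfl⟩ := span_vx (fun i => (e i : ZMod p)) (fun i j h => e.injective (Subtype.ext h)) v
  rw [AddChar.zero_apply]
  have key : ∀ s : Finset (Fin k), χ (∑ i ∈ s, c i • vx p k (e i : ZMod p)) = 1 := by
    intro s
    induction s using Finset.induction_on with
    | empty => rw [Finset.sum_empty, AddChar.map_zero_eq_one]
    | insert i s hi ih =>
      rw [Finset.sum_insert hi, AddChar.map_add_eq_mul, ih, mul_one]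
      exact (e i).2 (c i)
  exact key univ

theorem char_TT (hk : 2 ≤ k) (hkp : 2 * k ≤ p + 1) (χ : AddChar (Fin k → ZMod p) ℂ)
    (hχ : χ ≠ 0) : (∑ s ∈ TT p k, χ s).re ≤ ((TT p k).card : ℝ) / 2 := by
  classical
  have hp : 1 ≤ p := (Fact.out : p.Prime).one_lt.le
  set Z := (univ.filter (fun x : ZMod p => ∀ c : ZMod p, χ (c • vx p k x) = 1)) with hZ
  have hZk : Z.card < k := card_lines χ hχ
  have h1 : ∀ x : ZMod p, ∑ c ∈ univ.erase (0 : ZMod p), χ (c • vx p k x) =
      (if x ∈ Z then (p : ℂ) else 0) - 1 := by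
    intro x
    have h2 := Finset.add_sum_erase univ (fun c : ZMod p => χ (c • vx p k x))
      (Finset.mem_univ (0 : ZMod p))
    rw [zero_smul, AddChar.map_zero_eq_one] at h2
    let ψ : AddChar (ZMod p) ℂ :=
      χ.compAddMonoidHom (LinearMap.toSpanSingleton (ZMod p) (Fin k → ZMod p) (vx p k x)).toAddMonoidHom
    have h3 : ∑ c : ZMod p, χ (c • vx p k x) = if x ∈ Z then (p : ℂ) else 0 := by
      have h4 : ∑ c : ZMod p, ψ c = if ψ = 0 then (Fintype.card (ZMod p) : ℂ) else 0 :=
        AddChar.sum_eq_ite ψ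
      have h5 : ψ = 0 ↔ x ∈ Z := by
        rw [hZ, Finset.mem_filter]
        constructor
        · intro h
          refine ⟨Finset.mem_univ _, fun c => ?_⟩
          have := DFunLike.congr_fun h c
          exact this
        · intro h
          ext c
          exact h.2 c
      rw [ZMod.card] at h4
      simp only [h5] at h4
      exact h4
    rw [← h3, ← h2]
    ring
  rw [sum_TT hk]
  have h2 : ∑ x : ZMod p, ∑ c ∈ open Classical in univ.erase (0 : ZMod p), χ (c • vx p k x) =
      (((p : ℝ) * Z.card - p : ℝ) : ℂ) := by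
    have h3 : ∑ x : ZMod p, ((if x ∈ Z then (p : ℂ) else 0) - 1) =
        (((p : ℝ) * Z.card - p : ℝ) : ℂ) := by
      rw [Finset.sum_sub_distrib, ← Finset.sum_filter, Finset.sum_const, Finset.sum_const,
        Finset.card_univ, ZMod.card]
      have h4 : univ.filter (fun x => x ∈ Z) = Z := by ext; simp
      rw [h4]
      push_cast
      simp only [nsmul_eq_mul, mul_one]
      ring
    rw [← h3]
    refine Finset.sum_congr rfl fun x _ => ?_
    rw [← h1 x]
  rw [h2, Complex.ofReal_re, card_TT hk, Nat.cast_mul, Nat.cast_sub hp, Nat.cast_one]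
  have h3 : (Z.card : ℝ) + 1 ≤ k := by exact_mod_cast hZk
  have h4 : 2 * (k : ℝ) ≤ p + 1 := by exact_mod_cast hkp
  have hp0 : (0 : ℝ) ≤ p := Nat.cast_nonneg _
  have h5 : 2 * (Z.card : ℝ) - 2 ≤ (p : ℝ) - 1 := by linarith
  have h6 := mul_le_mul_of_nonneg_left h5 hp0
  linarith

end

end Pool.Agent.H313PC
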