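import Pool.Agent.H313PC.Main

/-!
# The family
-/

set_option autoImplicit false

open Finset Matrix

namespace Pool.Agent.H313PC

theorem num {P Q N n : ℝ} (hP : 2 ≤ P) (hQ : 1 ≤ Q) (hn : 0 ≤ n) (hN : N = (2 * n + 8) * Q) :
    (n + 4) * (Q * (P * P)) ≤ P * (P - 1) * (2 * N - 1) + Q * (P * P) ∧
    P * (P - 1) * (2 * N - 1) + Q * (P * P) ≤ (4 * n + 17) * (Q * (P * P)) ∧
    2 * (P * (P - 1) + Q * (P * P)) ≤ P * (P - 1) * (2 * N - 1) + Q * (P * P) := by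
  have hN1 : 1 ≤ N := by rw [hN]; nlinarith
  have hlo : (n + 4) * (Q * (P * P)) ≤ P * (P - 1) * (2 * N - 1) := by
    have h1 : N ≤ 2 * N - 1 := by linarith
    have h2 : P * P / 2 ≤ P * (P - 1) := by nlinarith
    have h3 : P * P / 2 * N ≤ P * (P - 1) * (2 * N - 1) := by
      apply mul_le_mul h2 h1 (by linarith)
      nlinarith
    have h4 : P * P / 2 * N = (n + 4) * (Q * (P * P)) := by
      rw [hN]; ring
    linarith
  have h5 : 0 ≤ Q * (P * P) := by positivity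
  refine ⟨by linarith, ?_, ?_⟩
  · have h1 : P * (P - 1) * (2 * N - 1) ≤ P * P * (2 * N) := by
      apply mul_le_mul _ (by linarith) (by linarith) (by positivity)
      nlinarith
    have h2 : P * P * (2 * N) = (4 * n + 16) * (Q * (P * P)) := by
      rw [hN]; ring
    linarith
  · have h1 : P * (P - 1) ≤ Q * (P * P) := by
      have h6 : P * (P - 1) ≤ 1 * (P * P) := by nlinarith
      have h7 : 1 * (P * P) ≤ Q * (P * P) := by gcongr
      linarith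
    have h2 : 4 * (Q * (P * P)) ≤ (n + 4) * (Q * (P * P)) := by
      gcongr
      linarith
    linarith

/-- the graph number `n` -/
theorem exists_graph (n : ℕ) : ∃ (G : Type) (_ : AddCommGroup G) (_ : Fintype G) (S : Finset G),
    n ≤ Fintype.card G ∧
    (0 ∉ S ∧ (∀ s ∈ S, -s ∈ S) ∧ AddSubgroup.closure (S : Set G) = ⊤) ∧
    (0 < Trel S ∧ Trel S ≤ 4) ∧ n ≤ Tmix S (1 / 4) ∧
    0 < Tmix S (1 - 1 / 32) ∧ 2 * Tmix S (1 - 1 / 32) ≤ Tmix S (1 / 32) := by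
  obtain ⟨p, hpn, hp⟩ := Nat.exists_infinite_primes (96 * n + 500)
  have : Fact p.Prime := ⟨hp⟩
  obtain ⟨k, hk⟩ : ∃ k, k = (p + 1) / 2 := ⟨_, rfl⟩
  have hk1 : 2 * k ≤ p + 1 := by omega
  have hk2 : 48 * n + 205 ≤ k := by omega
  have hk3 : 2 ≤ k := by omega
  obtain ⟨j, rfl⟩ : ∃ j, k = j + 2 := ⟨k - 2, by omega⟩
  obtain ⟨N, hN⟩ : ∃ N, N = (2 * n + 8) * p ^ j := ⟨_, rfl⟩
  have hp0 : 0 < p := hp.pos
  have hpj : 0 < p ^ j := pow_pos hp0 j
  have hN0 : 0 < N := by rw [hN]; positivity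
  have : NeZero (2 * N) := ⟨by omega⟩
  -- the order of the first factor
  have hcG : Fintype.card (Fin (j + 2) → ZMod p) = p ^ (j + 2) := by
    rw [Fintype.card_fun, ZMod.card, Fintype.card_fin]
  have hcH : Fintype.card (ZMod (2 * N)) = 2 * N := ZMod.card _
  have hcT : ((TT p (j + 2)).card : ℝ) = p * (p - 1) := by
    rw [card_TT hk3, Nat.cast_mul, Nat.cast_sub hp.one_lt.le, Nat.cast_one]
  have hp1 : (500 : ℝ) ≤ p := by
    have : 500 ≤ p := by omega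
    exact_mod_cast this
  have hpjR : (1 : ℝ) ≤ (p : ℝ) ^ j := by exact_mod_cast hpj
  have hNR : (N : ℝ) = (2 * n + 8) * (p : ℝ) ^ j := by rw [hN]; push_cast; ring
  have hn0 : (0 : ℝ) ≤ n := Nat.cast_nonneg n
  have hN1 : (1 : ℝ) ≤ N := by exact_mod_cast hN0
  have hcard := card_gens (TT p (j + 2)) ((N : ℕ) : ZMod (2 * N))
  rw [hcT, hcG, hcH] at hcard
  push_cast at hcard
  have hpp : (p : ℝ) ^ (j + 2) = (p : ℝ) ^ j * (p * p) := by ring
  obtain ⟨hlo, hup, hs⟩ := num (P := (p : ℝ)) (Q := (p : ℝ) ^ j) (N := (N : ℝ)) (n := (n : ℝ))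
    (le_trans (by norm_num) hp1) hpjR hn0 hNR
  rw [← hpp, ← hcard] at hlo hup hs
  rw [← hcT] at hs
  have hsmall : ∀ t : ℕ, 2 * t ≤ 48 * n + 204 →
      (((TT p (j + 2)).card + 1 : ℕ) : ℝ) ^ t / ((p : ℝ) ^ (j + 2)) ≤ 1 / 500 := by
    intro t ht
    have h1 : (((TT p (j + 2)).card + 1 : ℕ) : ℝ) ≤ (p : ℝ) ^ 2 := by
      rw [Nat.cast_add, hcT, Nat.cast_one]
      have h3 : (1 : ℝ) ≤ p := le_trans (by norm_num) hp1
      calc (p : ℝ) * (p - 1) + 1 = (p : ℝ) ^ 2 - (p - 1) := by ring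
        _ ≤ (p : ℝ) ^ 2 := by
          rw [sub_le_self_iff]
          exact sub_nonneg.2 h3
    have h2 : (((TT p (j + 2)).card + 1 : ℕ) : ℝ) ^ t ≤ (p : ℝ) ^ (j + 1) := by
      calc (((TT p (j + 2)).card + 1 : ℕ) : ℝ) ^ t ≤ ((p : ℝ) ^ 2) ^ t := by gcongr
        _ = (p : ℝ) ^ (2 * t) := by rw [pow_mul]
        _ ≤ (p : ℝ) ^ (j + 1) := pow_le_pow_right₀ (le_trans (by norm_num) hp1) (by omega)
    rw [div_le_div_iff₀ (by positivity) (by norm_num), one_mul, pow_succ (p : ℝ) (j + 1)]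
    apply mul_le_mul h2 hp1 (by norm_num) (by positivity)
  have ha0 : ((N : ℕ) : ZMod (2 * N)) ≠ 0 := by
    rw [Ne, ZMod.natCast_eq_zero_iff]
    intro h
    have := Nat.le_of_dvd hN0 h
    omega
  have ha1 : -((N : ℕ) : ZMod (2 * N)) = ((N : ℕ) : ZMod (2 * N)) := by
    rw [neg_eq_iff_add_eq_zero, ← Nat.cast_add, ← two_mul, ZMod.natCast_self]
  have hcGR : (Fintype.card (Fin (j + 2) → ZMod p) : ℝ) = (p : ℝ) ^ (j + 2) := by
    rw [hcG]; push_cast; ring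
  have hmain := main_abs (TT p (j + 2)) ((N : ℕ) : ZMod (2 * N)) n TT_nonempty
    (zero_notMem_TT hk3) (fun s hs => neg_mem_TT hs) ha0 ha1
    (fun χ hχ => char_TT hk3 hk1 χ hχ) (by rw [hcGR]; exact hs) (by rw [hcGR]; exact hlo)
    (by rw [hcGR]; exact hup) (fun t ht => by rw [hcGR]; exact hsmall t ht)
  refine ⟨(Fin (j + 2) → ZMod p) × ZMod (2 * N), inferInstance, inferInstance,
    gens (TT p (j + 2)) ((N : ℕ) : ZMod (2 * N)), ?_, hmain⟩
  rw [Fintype.card_prod, hcG, hcH]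
  have h1 : 1 ≤ p ^ (j + 2) := Nat.one_le_pow _ _ hp0
  have h2 : n ≤ 2 * N := by
    have : (2 * n + 8) * 1 ≤ (2 * n + 8) * p ^ j := Nat.mul_le_mul_left _ hpj
    omega
  calc n ≤ 1 * (2 * N) := by omega
    _ ≤ p ^ (j + 2) * (2 * N) := Nat.mul_le_mul_right _ h1

end Pool.Agent.H313PC
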