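import Pool.Agent.H313PC.Code

/-!
# The example: parameters and mixing times
-/

set_option autoImplicit false

open Finset Matrix

namespace Pool.Agent.H313PC

theorem pow_le_half {γ : ℝ} (h1 : γ ≤ 1) {m : ℕ} (hm : 1 ≤ γ * m) :
    (1 - γ) ^ m ≤ 1 / 2 := by
  have h2 : 1 - γ ≤ Real.exp (-γ) := Real.one_sub_le_exp_neg γ
  have h3 : (1 - γ) ^ m ≤ Real.exp (-γ) ^ m := pow_le_pow_left₀ (by linarith) h2 m
  rw [← Real.exp_nat_mul] at h3
  have h4 : Real.exp (m * (-γ)) ≤ Real.exp (-1) := Real.exp_le_exp.2 (by linarith)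
  have h5 : Real.exp (-1) ≤ 1 / 2 := by
    rw [Real.exp_neg, one_div]
    apply inv_anti₀ (by norm_num)
    have := Real.add_one_le_exp (1 : ℝ)
    linarith
  linarith

/-- the times at which the distance takes certain values -/
theorem times (d : ℕ → ℝ) {γ : ℝ} (n : ℕ) (hg0 : 0 < γ)
    (hglo : 1 ≤ γ * ((8 * n + 34 : ℕ) : ℝ)) (hgup : γ * (2 * ((n : ℝ) + 4)) ≤ 1)
    (hlow : ∀ t : ℕ, 2 * t ≤ 48 * n + 204 → (1 - γ) ^ t - 1 / 500 ≤ d t)
    (hupp : ∀ t : ℕ, d (t + 2) ≤ 1 - (1 - (1 - γ) ^ t) / 16) :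
    ∃ h : ℕ, n + 4 ≤ h ∧ (∀ u < h, 1 / 4 < d u) ∧ (∀ u < 3 * h + 1, 1 / 32 < d u) ∧
      d (h + 2) ≤ 1 - 1 / 32 ∧ 1 - 1 / 32 < d 0 := by
  classical
  have hn : (0 : ℝ) ≤ n := Nat.cast_nonneg n
  have hg8 : γ ≤ 1 / 8 := by nlinarith
  have hq0 : 0 ≤ 1 - γ := by linarith
  have hq1 : 1 - γ ≤ 1 := by linarith
  have hex : ∃ m : ℕ, (1 - γ) ^ m ≤ 1 / 2 := ⟨_, pow_le_half (by linarith) hglo⟩
  have hle : Nat.find hex ≤ 8 * n + 34 := Nat.find_min' hex (pow_le_half (by linarith) hglo)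
  have hsp := Nat.find_spec hex
  have hmin : ∀ u < Nat.find hex, 1 / 2 < (1 - γ) ^ u := fun u hu =>
    not_le.1 (Nat.find_min hex hu)
  generalize Nat.find hex = h at *
  have hh : n + 4 ≤ h := by
    have h1 : 1 + (h : ℝ) * (-γ) ≤ (1 + (-γ)) ^ h := one_add_mul_le_pow (by linarith) h
    rw [← sub_eq_add_neg] at h1
    have h2 : 1 / 2 ≤ h * γ := by linarith
    have h3 : (n : ℝ) + 4 ≤ h := by
      by_contra hcon
      push Not at hcon
      have h4 : (h : ℝ) * γ < ((n : ℝ) + 4) * γ := by gcongr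
      linarith
    exact_mod_cast h3
  have hpow : 7 / 16 ≤ (1 - γ) ^ h := by
    obtain ⟨k, rfl⟩ : ∃ k, h = k + 1 := ⟨h - 1, by omega⟩
    have h1 := hmin k (by omega)
    rw [pow_succ]
    nlinarith
  refine ⟨h, hh, ?_, ?_, ?_, ?_⟩
  · intro u hu
    have h1 := hmin u hu
    have h2 := hlow u (by omega)
    linarith
  · intro u hu
    have h2 := hlow u (by omega)
    have h3 : (1 - γ) ^ (3 * h) ≤ (1 - γ) ^ u := pow_le_pow_of_le_one hq0 hq1 (by omega)
    have h4 : (7 / 16 : ℝ) ^ 3 ≤ (1 - γ) ^ (3 * h) := by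
      rw [mul_comm, pow_mul]
      exact pow_le_pow_left₀ (by norm_num) hpow 3
    norm_num at h4
    linarith
  · have h1 := hupp h
    linarith
  · have h1 := hlow 0 (by omega)
    rw [pow_zero] at h1
    linarith

/-- the abstract form of the example -/
theorem main_abs {G H : Type} [AddCommGroup G] [Fintype G] [AddCommGroup H] [Fintype H]
    (T : Finset G) (a0 : H) (n : ℕ) (hTne : T.Nonempty) (hT0 : 0 ∉ T) (hTneg : ∀ s ∈ T, -s ∈ T)
    (ha0 : a0 ≠ 0) (ha1 : -a0 = a0)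
    (hT : ∀ χ : AddChar G ℂ, χ ≠ 0 → (∑ s ∈ T, χ s).re ≤ (T.card : ℝ) / 2)
    (hs : 2 * ((T.card : ℝ) + Fintype.card G) ≤ (gens T a0).card)
    (hlo : ((n : ℝ) + 4) * Fintype.card G ≤ (gens T a0).card)
    (hup : ((gens T a0).card : ℝ) ≤ (4 * n + 17) * Fintype.card G)
    (hsmall : ∀ t : ℕ, 2 * t ≤ 48 * n + 204 →
      ((T.card + 1 : ℕ) : ℝ) ^ t / (Fintype.card G : ℝ) ≤ 1 / 500) :
    (0 ∉ gens T a0 ∧ (∀ s ∈ gens T a0, -s ∈ gens T a0) ∧
      AddSubgroup.closure (gens T a0 : Set (G × H)) = ⊤) ∧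
    (0 < Trel (gens T a0) ∧ Trel (gens T a0) ≤ 4) ∧ n ≤ Tmix (gens T a0) (1 / 4) ∧
    0 < Tmix (gens T a0) (1 - 1 / 32) ∧
    2 * Tmix (gens T a0) (1 - 1 / 32) ≤ Tmix (gens T a0) (1 / 32) := by
  classical
  have hc := card_pos' T a0
  have hG : (0 : ℝ) < Fintype.card G := by exact_mod_cast Fintype.card_pos
  have hsym : ∀ s ∈ gens T a0, -s ∈ gens T a0 := by
    intro s hs
    rw [mem_gens] at hs ⊢
    rcases hs with ⟨h1, h2⟩ | h
    · left
      refine ⟨hTneg _ h1, ?_⟩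
      rw [Prod.snd_neg]
      intro h3
      apply h2
      rw [← neg_neg s.2, h3, ha1]
    · right
      rw [Prod.snd_neg, h, ha1]
  refine ⟨⟨?_, hsym, ?_⟩, Trel_le _ hsym (fun χ hχ => char_le T a0 hT hs χ hχ)
    (gens_nonempty T a0), ?_⟩
  · rw [mem_gens]
    rintro (⟨h, -⟩ | h)
    · exact hT0 h
    · exact ha0 h.symm
  · rw [AddSubgroup.eq_top_iff']
    have h1 : ∀ g : G, ((g, a0) : G × H) ∈ AddSubgroup.closure (gens T a0 : Set (G × H)) :=
      fun g => AddSubgroup.subset_closure (Finset.mem_coe.2 ((mem_gens T a0 _).2 (Or.inr rfl)))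
    have h2 : ∀ g : G, ((g, 0) : G × H) ∈ AddSubgroup.closure (gens T a0 : Set (G × H)) := by
      intro g
      have := AddSubgroup.sub_mem _ (h1 g) (h1 0)
      rwa [Prod.mk_sub_mk, sub_zero, sub_self] at this
    rintro ⟨g, h⟩
    by_cases hh : h = a0
    · rw [hh]; exact h1 g
    · obtain ⟨t, ht⟩ := hTne
      have h3 : ((t, h) : G × H) ∈ AddSubgroup.closure (gens T a0 : Set (G × H)) :=
        AddSubgroup.subset_closure (Finset.mem_coe.2 ((mem_gens T a0 _).2 (Or.inl ⟨ht, hh⟩)))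
      have h4 := AddSubgroup.add_mem _ h3 (h2 (g - t))
      rwa [Prod.mk_add_mk, add_sub_cancel, add_zero] at h4
  -- the rate
  have hg0 := gam_pos T a0
  have hg1 := gam_le T a0 hs
  have hglo : 1 ≤ gam T a0 * ((8 * n + 34 : ℕ) : ℝ) := by
    unfold gam
    rw [div_mul_eq_mul_div, le_div_iff₀ (by positivity)]
    push_cast
    linarith
  have hgup : gam T a0 * (2 * ((n : ℝ) + 4)) ≤ 1 := by
    unfold gam
    rw [div_mul_eq_mul_div, div_le_iff₀ (by positivity)]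
    linarith
  obtain ⟨h, hh, hA, hB, hC, hD⟩ := times (dist (gens T a0)) n hg0 hglo hgup
    (fun t ht => by
      have h1 := dist_lower T a0 t
      have h2 := hsmall t ht
      linarith)
    (fun t => dist_upper T a0 hs t)
  have hex : ∀ ε : ℝ, 0 < ε → ∃ u, dist (gens T a0) u ≤ ε := by
    intro ε hε
    have hpos : 0 < (1 - (1 - gam T a0) ^ 1) / 16 := by
      rw [pow_one]; linarith
    refine exists_dist_le _ (gens_nonempty T a0) (t := 3) hpos (by rw [pow_one]; linarith)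
      (fun z => ?_) hε
    have := law_ge T a0 hs 1 z.1 z.2
    rwa [Fintype.card_prod, Nat.cast_mul]
  obtain ⟨u1, hu1⟩ := hex (1 / 4) (by norm_num)
  obtain ⟨u2, hu2⟩ := hex (1 / 32) (by norm_num)
  have h1 := le_Tmix _ hu1 hA
  have h2 := le_Tmix _ hu2 hB
  have h3 := Tmix_le _ hC
  have h4 : 1 ≤ Tmix (gens T a0) (1 - 1 / 32) := by
    refine le_Tmix _ hC fun u hu => ?_
    have : u = 0 := by omega
    rw [this]
    exact hD
  refine ⟨by omega, by omega, by omega⟩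

end Pool.Agent.H313PC
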