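import Pool.Agent.H313PC.Walk

/-!
# The walk on `G × H` with steps in `T × (H \ {a₀})` and `G × {a₀}`
-/

set_option autoImplicit false

open Finset Matrix

namespace Pool.Agent.H313PC

variable {G H : Type} [AddCommGroup G] [Fintype G] [AddCommGroup H] [Fintype H]

open Classical in
/-- The generating set `T × (H \ {a₀}) ∪ G × {a₀}`. -/
noncomputable def gens (T : Finset G) (a0 : H) : Finset (G × H) :=
  T ×ˢ (univ.erase a0) ∪ univ ×ˢ {a0}

omit [AddCommGroup G] [AddCommGroup H] in
open Classical in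
theorem mem_gens (T : Finset G) (a0 : H) (z : G × H) :
    z ∈ gens T a0 ↔ (z.1 ∈ T ∧ z.2 ≠ a0) ∨ z.2 = a0 := by
  rw [gens, Finset.mem_union, Finset.mem_product, Finset.mem_product, Finset.mem_erase,
    Finset.mem_singleton]
  simp

omit [AddCommGroup G] [AddCommGroup H] in
open Classical in
theorem sum_gens {R : Type} [AddCommMonoid R] (T : Finset G) (a0 : H) (F : G × H → R) :
    ∑ z ∈ gens T a0, F z =
      ∑ t ∈ T, ∑ a ∈ univ.erase a0, F (t, a) + ∑ g : G, F (g, a0) := by
  rw [gens, Finset.sum_union, Finset.sum_product, Finset.sum_product]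
  · simp
  · rw [Finset.disjoint_left]
    rintro z h1 h2
    rw [Finset.mem_product, Finset.mem_erase] at h1
    rw [Finset.mem_product, Finset.mem_singleton] at h2
    exact h1.2.1 h2.2

theorem card_gens (T : Finset G) (a0 : H) : ((gens T a0).card : ℝ) =
    T.card * ((Fintype.card H : ℝ) - 1) + Fintype.card G := by
  classical
  have h := sum_gens T a0 (fun _ => (1 : ℝ))
  simp only [Finset.sum_const, nsmul_eq_mul, mul_one] at h
  rw [h, Finset.card_univ]
  congr 2
  rw [Finset.card_erase_of_mem (Finset.mem_univ _), Finset.card_univ, Nat.cast_sub]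
  · simp
  · exact Fintype.card_pos

/-- the probability of a step in `G × {a₀}` -/
noncomputable def gam (T : Finset G) (a0 : H) : ℝ :=
  (Fintype.card G : ℝ) / (2 * ((gens T a0).card : ℝ))

section bounds

variable (T : Finset G) (a0 : H)

theorem gens_nonempty : (gens T a0).Nonempty :=
  ⟨(0, a0), (mem_gens T a0 _).2 (Or.inr rfl)⟩

theorem card_pos' : (0 : ℝ) < (gens T a0).card := by
  exact_mod_cast (gens_nonempty T a0).card_pos

theorem gam_id : 1 / 2 + 1 / (2 * ((gens T a0).card : ℝ)) *
    (T.card * ((Fintype.card H : ℝ) - 1)) = 1 - gam T a0 := by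
  have h := card_pos' T a0
  have h1 := card_gens T a0
  have h2 : (T.card : ℝ) * ((Fintype.card H : ℝ) - 1) =
      (gens T a0).card - Fintype.card G := by rw [h1]; ring
  rw [h2, gam]
  generalize ((gens T a0).card : ℝ) = c at *
  generalize (Fintype.card G : ℝ) = d at *
  field_simp
  ring

theorem law_step (t : ℕ) (g : G) (h : H) : law (gens T a0) (t + 1) (g, h) =
    1 / 2 * law (gens T a0) t (g, h) + 1 / (2 * ((gens T a0).card : ℝ)) *
      (∑ x ∈ T, ∑ a ∈ open Classical in univ.erase a0, law (gens T a0) t (g - x, h - a) +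
        ∑ v : G, law (gens T a0) t (g - v, h - a0)) := by
  rw [law_succ, sum_gens]
  rfl

/-- the law of the second coordinate -/
noncomputable def mar (t : ℕ) (h : H) : ℝ := ∑ g, law (gens T a0) t (g, h)

theorem mar_nonneg (t : ℕ) (h : H) : 0 ≤ mar T a0 t h :=
  Finset.sum_nonneg fun _ _ => law_nonneg _ _ _

theorem sum_mar (t : ℕ) : ∑ h, mar T a0 t h = 1 := by
  rw [← sum_law (gens T a0) (gens_nonempty T a0) t, Fintype.sum_prod_type_right]
  rfl

theorem mar_succ (t : ℕ) (h : H) : mar T a0 (t + 1) h =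
    1 / 2 * mar T a0 t h + 1 / (2 * ((gens T a0).card : ℝ)) *
      (T.card * ∑ a ∈ open Classical in univ.erase a0, mar T a0 t (h - a) +
        Fintype.card G * mar T a0 t (h - a0)) := by
  classical
  have hshift : ∀ (x : G) (a : H), ∑ g, law (gens T a0) t (g - x, h - a) =
      mar T a0 t (h - a) := by
    intro x a
    rw [mar, ← Equiv.sum_comp (Equiv.subRight x) (fun g => law (gens T a0) t (g, h - a))]
    rfl
  rw [mar, Finset.sum_congr rfl fun g _ => law_step T a0 t g h, Finset.sum_add_distrib,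
    ← Finset.mul_sum, ← Finset.mul_sum, Finset.sum_add_distrib]
  congr 3
  · rw [Finset.sum_comm, ← nsmul_eq_mul, ← Finset.sum_const]
    refine Finset.sum_congr rfl fun x _ => ?_
    rw [Finset.sum_comm]
    refine Finset.sum_congr rfl fun a _ => ?_
    convert hshift x a
  · rw [Finset.sum_comm, ← Finset.card_univ, ← nsmul_eq_mul, ← Finset.sum_const]
    exact Finset.sum_congr rfl fun v _ => hshift v a0

theorem sum_mar_sub (t : ℕ) (h : H) : ∑ a, mar T a0 t (h - a) = 1 := by
  rw [← sum_mar T a0 t]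
  exact Equiv.sum_comp (Equiv.subLeft h) (fun a => mar T a0 t a)

open Classical in
theorem sum_mar_erase (t : ℕ) (h : H) : ∑ a ∈ univ.erase a0, mar T a0 t (h - a) =
    1 - mar T a0 t (h - a0) := by
  have h1 := Finset.add_sum_erase univ (fun a => mar T a0 t (h - a)) (Finset.mem_univ a0)
  rw [sum_mar_sub] at h1
  linarith

theorem mar_le_one (t : ℕ) (h : H) : mar T a0 t h ≤ 1 := by
  rw [← sum_mar T a0 t]
  exact Finset.single_le_sum (f := fun h => mar T a0 t h) (fun h _ => mar_nonneg T a0 t h)
    (Finset.mem_univ h)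

theorem mar_le (hs : 2 * ((T.card : ℝ) + Fintype.card G) ≤ (gens T a0).card) (t : ℕ) (h : H) :
    mar T a0 (t + 1) h ≤ 3 / 4 := by
  classical
  have hc := card_pos' T a0
  rw [mar_succ]
  have h1 := mar_le_one T a0 t h
  have h2 := mar_le_one T a0 t (h - a0)
  have h3 : ∑ a ∈ open Classical in univ.erase a0, mar T a0 t (h - a) ≤ 1 := by
    rw [sum_mar_erase]
    linarith [mar_nonneg T a0 t (h - a0)]
  have h4 : (T.card : ℝ) * ∑ a ∈ open Classical in univ.erase a0, mar T a0 t (h - a) +
        Fintype.card G * mar T a0 t (h - a0) ≤ T.card * 1 + Fintype.card G * 1 := by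
    gcongr
  have h5 : 1 / (2 * ((gens T a0).card : ℝ)) *
      (T.card * ∑ a ∈ open Classical in univ.erase a0, mar T a0 t (h - a) +
        Fintype.card G * mar T a0 t (h - a0)) ≤
      1 / (2 * ((gens T a0).card : ℝ)) * (T.card * 1 + Fintype.card G * 1) := by
    gcongr
  have h6 : 1 / (2 * ((gens T a0).card : ℝ)) * (T.card * 1 + Fintype.card G * 1) ≤ 1 / 4 := by
    rw [one_div, inv_mul_le_iff₀ (by positivity)]
    linarith
  linarith

theorem mar_ge (hs : 2 * ((T.card : ℝ) + Fintype.card G) ≤ (gens T a0).card) (t : ℕ) (h : H) :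
    1 / (16 * (Fintype.card H : ℝ)) ≤ mar T a0 (t + 2) h := by
  classical
  have hc := card_pos' T a0
  have hH : (1 : ℝ) ≤ Fintype.card H := by exact_mod_cast Fintype.card_pos
  rw [mar_succ, sum_mar_erase]
  have h1 := mar_le T a0 hs t (h - a0)
  have h2 := mar_nonneg T a0 (t + 1) h
  have h3 := mar_nonneg T a0 (t + 1) (h - a0)
  have h4 : 1 / (2 * ((gens T a0).card : ℝ)) * (T.card * (1 / 4)) ≤
      1 / (2 * ((gens T a0).card : ℝ)) *
      (T.card * (1 - mar T a0 (t + 1) (h - a0)) +
        Fintype.card G * mar T a0 (t + 1) (h - a0)) := by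
    have h6 : (T.card : ℝ) * (1 / 4) ≤ T.card * (1 - mar T a0 (t + 1) (h - a0)) := by
      gcongr
      linarith
    have h7 : 0 ≤ Fintype.card G * mar T a0 (t + 1) (h - a0) := by positivity
    gcongr
    linarith
  have h5 : 1 / (16 * (Fintype.card H : ℝ)) ≤
      1 / (2 * ((gens T a0).card : ℝ)) * (T.card * (1 / 4)) := by
    have h6 : ((gens T a0).card : ℝ) ≤ 2 * (T.card * Fintype.card H) := by
      have h7 := card_gens T a0
      have h8 : (0 : ℝ) ≤ T.card := Nat.cast_nonneg _
      nlinarith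
    rw [show 1 / (2 * ((gens T a0).card : ℝ)) * (T.card * (1 / 4)) =
      T.card / (8 * (gens T a0).card) by field_simp; ring]
    rw [div_le_div_iff₀ (by positivity) (by positivity)]
    nlinarith
  linarith

theorem gam_pos : 0 < gam T a0 := by
  have hc := card_pos' T a0
  have hG : (0 : ℝ) < Fintype.card G := by exact_mod_cast Fintype.card_pos
  unfold gam
  positivity

theorem gam_le (hs : 2 * ((T.card : ℝ) + Fintype.card G) ≤ (gens T a0).card) :
    gam T a0 ≤ 1 / 4 := by
  have hc := card_pos' T a0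
  have h8 : (0 : ℝ) ≤ T.card := Nat.cast_nonneg _
  unfold gam
  rw [div_le_div_iff₀ (by positivity) (by norm_num)]
  linarith

/-- after `t + 2` steps the law is bounded below -/
theorem law_ge (hs : 2 * ((T.card : ℝ) + Fintype.card G) ≤ (gens T a0).card) (t : ℕ) :
    ∀ (g : G) (h : H), (1 - (1 - gam T a0) ^ t) / 16 /
      ((Fintype.card G : ℝ) * Fintype.card H) ≤ law (gens T a0) (t + 2) (g, h) := by
  classical
  have hc := card_pos' T a0
  have hG : (0 : ℝ) < Fintype.card G := by exact_mod_cast Fintype.card_pos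
  have hH : (1 : ℝ) ≤ Fintype.card H := by exact_mod_cast Fintype.card_pos
  have hH0 : (0 : ℝ) < Fintype.card H := by linarith
  have hg := gam_pos T a0
  have hg1 := gam_le T a0 hs
  induction t with
  | zero =>
    intro g h
    rw [pow_zero, sub_self, zero_div, zero_div]
    exact law_nonneg _ _ _
  | succ t ih =>
    intro g h
    set x := (1 - (1 - gam T a0) ^ t) / 16 / ((Fintype.card G : ℝ) * Fintype.card H) with hx
    rw [law_step]
    have h1 : (T.card : ℝ) * (((Fintype.card H : ℝ) - 1) * x) ≤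
        ∑ y ∈ T, ∑ a ∈ open Classical in univ.erase a0,
          law (gens T a0) (t + 2) (g - y, h - a) := by
      rw [← nsmul_eq_mul, ← Finset.sum_const]
      refine Finset.sum_le_sum fun y _ => ?_
      have h2 : ((Fintype.card H : ℝ) - 1) * x =
          ∑ a ∈ open Classical in univ.erase a0, x := by
        rw [Finset.sum_const, nsmul_eq_mul, Finset.card_erase_of_mem (Finset.mem_univ _),
          Finset.card_univ, Nat.cast_sub Fintype.card_pos]
        simp
      rw [h2]
      exact Finset.sum_le_sum fun a _ => ih _ _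
    have h2 : 1 / (16 * (Fintype.card H : ℝ)) ≤
        ∑ v : G, law (gens T a0) (t + 2) (g - v, h - a0) := by
      have h3 := mar_ge T a0 hs t (h - a0)
      rw [mar, ← Equiv.sum_comp (Equiv.subLeft g)] at h3
      exact h3
    have h3 := ih g h
    have h4 : 1 / 2 * x + 1 / (2 * ((gens T a0).card : ℝ)) *
        (T.card * (((Fintype.card H : ℝ) - 1) * x) + 1 / (16 * (Fintype.card H : ℝ))) ≤
        1 / 2 * law (gens T a0) (t + 2) (g, h) + 1 / (2 * ((gens T a0).card : ℝ)) *
      (∑ y ∈ T, ∑ a ∈ open Classical in univ.erase a0,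
          law (gens T a0) (t + 2) (g - y, h - a) +
        ∑ v : G, law (gens T a0) (t + 2) (g - v, h - a0)) := by
      gcongr
    refine le_trans (le_of_eq ?_) h4
    have h5 : 1 / 2 * x + 1 / (2 * ((gens T a0).card : ℝ)) *
        (T.card * (((Fintype.card H : ℝ) - 1) * x) + 1 / (16 * (Fintype.card H : ℝ))) =
        (1 / 2 + 1 / (2 * ((gens T a0).card : ℝ)) *
          (T.card * ((Fintype.card H : ℝ) - 1))) * x +
          gam T a0 * (1 / 16 / ((Fintype.card G : ℝ) * Fintype.card H)) := by
      unfold gam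
      field_simp
      ring
    rw [h5, gam_id, hx, pow_succ]
    field_simp
    ring

/-- upper bound for the distance -/
theorem dist_upper (hs : 2 * ((T.card : ℝ) + Fintype.card G) ≤ (gens T a0).card) (t : ℕ) :
    dist (gens T a0) (t + 2) ≤ 1 - (1 - (1 - gam T a0) ^ t) / 16 := by
  have hg := gam_pos T a0
  have hg1 := gam_le T a0 hs
  have h0 : 0 ≤ (1 - gam T a0) ^ t := pow_nonneg (by linarith) _
  refine dist_le _ (gens_nonempty T a0) _ _ (by linarith) ?_
  rintro ⟨g, h⟩
  have := law_ge T a0 hs t g h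
  rwa [Fintype.card_prod, Nat.cast_mul]

/-- the set of the first coordinates that can be reached without a step in `G × {a₀}` -/
noncomputable def reach (T : Finset G) : ℕ → Finset G
  | 0 => {0}
  | t + 1 => open Classical in Finset.image₂ (fun x y => x + y) (reach T t) (insert 0 T)

omit [Fintype G] in
theorem card_reach (t : ℕ) : (reach T t).card ≤ (T.card + 1) ^ t := by
  classical
  induction t with
  | zero => simp [reach]
  | succ t ih =>
    rw [reach, pow_succ]
    refine (Finset.card_image₂_le _ _ _).trans ?_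
    exact Nat.mul_le_mul ih (Finset.card_insert_le _ _)

omit [Fintype G] in
theorem reach_add {t : ℕ} {x y : G} (hx : x ∈ reach T t) (hy : y ∈ T ∨ y = 0) :
    x + y ∈ reach T (t + 1) := by
  classical
  rw [reach]
  refine Finset.mem_image₂.2 ⟨x, hx, y, ?_, rfl⟩
  rw [Finset.mem_insert]
  tauto

open Classical in
theorem mass_ge (t : ℕ) : (1 - gam T a0) ^ t ≤
    ∑ z ∈ (reach T t) ×ˢ (univ : Finset H), law (gens T a0) t z := by
  have hc := card_pos' T a0
  have hH : (1 : ℝ) ≤ Fintype.card H := by exact_mod_cast Fintype.card_pos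
  let f : ℕ → G × H → ℝ := fun t z => if z.1 ∈ reach T t then 1 else 0
  have hf : ∀ t, ∑ z ∈ (reach T t) ×ˢ (univ : Finset H), law (gens T a0) t z =
      ∑ z, law (gens T a0) t z * f t z := by
    intro t
    simp only [f, mul_ite, mul_one, mul_zero]
    rw [← Finset.sum_filter]
    congr 1
    ext z
    simp
  have hf0 : ∀ t z, 0 ≤ f t z := by
    intro t z
    simp only [f]
    split_ifs <;> norm_num
  have hf1 : ∀ t (z : G × H) (s : G × H), (s.1 ∈ T ∨ s.1 = 0) → f t z ≤ f (t + 1) (z + s) := by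
    intro t z s hs
    simp only [f]
    by_cases h : z.1 ∈ reach T t
    · rw [if_pos h, if_pos]
      exact reach_add T h hs
    · rw [if_neg h]
      split_ifs <;> norm_num
  rw [hf]
  induction t with
  | zero =>
    rw [pow_zero, ← hf]
    refine le_trans ?_ (Finset.single_le_sum (f := fun z => law (gens T a0) 0 z)
      (fun z _ => law_nonneg _ _ z) (a := (0, 0)) ?_)
    · exact (law_zero (gens T a0)).ge
    · simp [reach]
  | succ t ih =>
    rw [sum_law_succ]
    set W := ∑ z, law (gens T a0) t z * f t z with hW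
    have hW0 : 0 ≤ W := Finset.sum_nonneg fun z _ => mul_nonneg (law_nonneg _ _ _) (hf0 _ _)
    have h1 : W ≤ ∑ z, law (gens T a0) t z * f (t + 1) z := by
      refine Finset.sum_le_sum fun z _ => mul_le_mul_of_nonneg_left ?_ (law_nonneg _ _ _)
      have := hf1 t z 0 (Or.inr rfl)
      rwa [add_zero] at this
    have h2 : (T.card : ℝ) * (((Fintype.card H : ℝ) - 1) * W) ≤
        ∑ s ∈ gens T a0, ∑ z, law (gens T a0) t z * f (t + 1) (z + s) := by
      rw [sum_gens]
      have h3 : 0 ≤ ∑ g : G, ∑ z, law (gens T a0) t z * f (t + 1) (z + (g, a0)) :=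
        Finset.sum_nonneg fun g _ => Finset.sum_nonneg fun z _ =>
          mul_nonneg (law_nonneg _ _ _) (hf0 _ _)
      have h4 : (T.card : ℝ) * (((Fintype.card H : ℝ) - 1) * W) ≤
          ∑ x ∈ T, ∑ a ∈ univ.erase a0, ∑ z, law (gens T a0) t z * f (t + 1) (z + (x, a)) := by
        rw [← nsmul_eq_mul, ← Finset.sum_const]
        refine Finset.sum_le_sum fun x hx => ?_
        have h5 : ((Fintype.card H : ℝ) - 1) * W = ∑ a ∈ univ.erase a0, W := by
          rw [Finset.sum_const, nsmul_eq_mul, Finset.card_erase_of_mem (Finset.mem_univ _),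
            Finset.card_univ, Nat.cast_sub Fintype.card_pos]
          simp
        rw [h5]
        refine Finset.sum_le_sum fun a _ => ?_
        exact Finset.sum_le_sum fun z _ =>
          mul_le_mul_of_nonneg_left (hf1 t z (x, a) (Or.inl hx)) (law_nonneg _ _ _)
      linarith
    have h3 : 1 / 2 * W + 1 / (2 * ((gens T a0).card : ℝ)) *
        (T.card * (((Fintype.card H : ℝ) - 1) * W)) ≤
        1 / 2 * ∑ z, law (gens T a0) t z * f (t + 1) z + 1 / (2 * ((gens T a0).card : ℝ)) *
          ∑ s ∈ gens T a0, ∑ z, law (gens T a0) t z * f (t + 1) (z + s) := by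
      gcongr
    refine le_trans ?_ h3
    have h4 : 1 / 2 * W + 1 / (2 * ((gens T a0).card : ℝ)) *
        (T.card * (((Fintype.card H : ℝ) - 1) * W)) = (1 - gam T a0) * W := by
      rw [← gam_id]; ring
    rw [h4, pow_succ, mul_comm]
    have h5 : 0 ≤ 1 - gam T a0 := by
      rw [← gam_id]
      have h8 : (0 : ℝ) ≤ T.card := Nat.cast_nonneg _
      have h9 : 0 ≤ (Fintype.card H : ℝ) - 1 := by linarith
      positivity
    exact mul_le_mul_of_nonneg_left ih h5

/-- lower bound for the distance -/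
theorem dist_lower (t : ℕ) : (1 - gam T a0) ^ t -
    ((T.card + 1 : ℕ) : ℝ) ^ t / (Fintype.card G : ℝ) ≤ dist (gens T a0) t := by
  classical
  have h1 := dist_ge (gens T a0) (gens_nonempty T a0) t ((reach T t) ×ˢ (univ : Finset H))
  have h2 := mass_ge T a0 t
  have hG : (0 : ℝ) < Fintype.card G := by exact_mod_cast Fintype.card_pos
  have hH : (0 : ℝ) < Fintype.card H := by exact_mod_cast Fintype.card_pos
  have h3 : ((((reach T t) ×ˢ (univ : Finset H)).card : ℕ) : ℝ) / (Fintype.card (G × H) : ℝ) ≤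
      ((T.card + 1 : ℕ) : ℝ) ^ t / (Fintype.card G : ℝ) := by
    rw [Finset.card_product, Finset.card_univ, Fintype.card_prod, Nat.cast_mul, Nat.cast_mul,
      mul_div_mul_right _ _ hH.ne']
    gcongr
    exact_mod_cast card_reach T t
  linarith

end bounds

section chars

/-- the character sums over the generating set -/
theorem char_le (T : Finset G) (a0 : H)
    (hT : ∀ χ : AddChar G ℂ, χ ≠ 0 → (∑ s ∈ T, χ s).re ≤ (T.card : ℝ) / 2)
    (hs : 2 * ((T.card : ℝ) + Fintype.card G) ≤ (gens T a0).card) (χ : AddChar (G × H) ℂ)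
    (hχ : χ ≠ 0) : (∑ s ∈ gens T a0, χ s).re ≤ ((gens T a0).card : ℝ) / 2 := by
  classical
  let χ1 : AddChar G ℂ := χ.compAddMonoidHom (AddMonoidHom.inl G H)
  let χ2 : AddChar H ℂ := χ.compAddMonoidHom (AddMonoidHom.inr G H)
  have hsplit : ∀ g h, χ (g, h) = χ1 g * χ2 h := by
    intro g h
    change χ (g, h) = χ (g, 0) * χ (0, h)
    rw [← AddChar.map_add_eq_mul]
    simp
  have hcard := card_gens T a0
  have hH : (1 : ℝ) ≤ Fintype.card H := by exact_mod_cast Fintype.card_pos
  have hG : (0 : ℝ) < Fintype.card G := by exact_mod_cast Fintype.card_pos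
  have hT0 : (0 : ℝ) ≤ T.card := Nat.cast_nonneg _
  have hsum : ∑ s ∈ gens T a0, χ s = (∑ x ∈ T, χ1 x) * (∑ a, χ2 a - χ2 a0) +
      (∑ g, χ1 g) * χ2 a0 := by
    rw [sum_gens]
    have h1 := Finset.add_sum_erase univ (fun a => χ2 a) (Finset.mem_univ a0)
    have h2 : ∑ a ∈ univ.erase a0, χ2 a = ∑ a, χ2 a - χ2 a0 := by
      rw [← h1]; ring
    rw [← h2, Finset.sum_mul_sum, Finset.sum_mul]
    simp only [hsplit]
  have hnT : ‖∑ x ∈ T, χ1 x‖ ≤ T.card := by
    refine (norm_sum_le _ _).trans ?_
    simp only [AddChar.norm_apply, Finset.sum_const, nsmul_eq_mul, mul_one, le_refl]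
  have hn2 : ‖χ2 a0‖ = 1 := AddChar.norm_apply χ2 a0
  rw [hsum]
  by_cases h1 : χ1 = 0
  · have h2 : χ2 ≠ 0 := by
      intro h2
      apply hχ
      ext z
      obtain ⟨g, h⟩ := z
      rw [hsplit, h1, h2]
      simp
    rw [(AddChar.sum_eq_zero_iff_ne_zero).2 h2]
    refine (Complex.re_le_norm _).trans ?_
    refine (norm_add_le _ _).trans ?_
    rw [zero_sub, norm_mul, norm_mul, norm_neg, hn2, mul_one, mul_one]
    have h3 : ‖∑ g, χ1 g‖ ≤ Fintype.card G := by
      refine (norm_sum_le _ _).trans ?_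
      simp only [AddChar.norm_apply, Finset.sum_const, nsmul_eq_mul, mul_one, Finset.card_univ,
        le_refl]
    linarith
  · rw [(AddChar.sum_eq_zero_iff_ne_zero).2 h1, zero_mul, add_zero]
    by_cases h2 : χ2 = 0
    · have h3 : ∑ a, χ2 a - χ2 a0 = (((Fintype.card H : ℝ) - 1 : ℝ) : ℂ) := by
        rw [h2]
        simp
      rw [h3, mul_comm, Complex.re_ofReal_mul]
      have h4 := hT χ1 h1
      have h5 : ((Fintype.card H : ℝ) - 1) * (∑ x ∈ T, χ1 x).re ≤
          ((Fintype.card H : ℝ) - 1) * ((T.card : ℝ) / 2) :=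
        mul_le_mul_of_nonneg_left h4 (by linarith)
      rw [hcard]
      linarith
    · rw [(AddChar.sum_eq_zero_iff_ne_zero).2 h2]
      refine (Complex.re_le_norm _).trans ?_
      rw [zero_sub, norm_mul, norm_neg, hn2, mul_one]
      linarith

end chars

end Pool.Agent.H313PC
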