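import Mathlib

/-!
# Lazy simple random walks on Cayley graphs of finite abelian groups

Definitions (transition matrix, distance to stationarity, mixing times, relaxation time) and the
general facts used for the example.
-/

set_option autoImplicit false

open Finset Matrix

namespace Pool.Agent.H313PC

section defs

variable {G : Type} [AddCommGroup G] [Fintype G]

open Classical in
/-- The transition matrix of the lazy simple random walk on `Cay(G, S)`: the walk stays put with
probability `1 / 2` and otherwise moves from `x` to `x + s` with `s` uniform in `S`. -/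
noncomputable def lazy (S : Finset G) : Matrix G G ℝ :=
  fun x y => (if y = x then 1 / 2 else 0) + (if y - x ∈ S then 1 / (2 * (S.card : ℝ)) else 0)

open Classical in
/-- The worst-case total variation distance to stationarity at time `t`. -/
noncomputable def dist (S : Finset G) (t : ℕ) : ℝ :=
  ⨆ x : G, (1 / 2) * ∑ y, |(lazy S ^ t) x y - 1 / (Fintype.card G : ℝ)|

/-- The mixing time. -/
noncomputable def Tmix (S : Finset G) (ε : ℝ) : ℕ := sInf {t | dist S t ≤ ε}

/-- The second largest eigenvalue of the transition matrix: the largest eigenvalue on the functions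
that are orthogonal to the constants. -/
noncomputable def lam2 (S : Finset G) : ℝ :=
  sSup {l : ℝ | ∃ f : G → ℝ, f ≠ 0 ∧ ∑ x, f x = 0 ∧ lazy S *ᵥ f = l • f}

/-- The relaxation time. -/
noncomputable def Trel (S : Finset G) : ℝ := 1 / (1 - lam2 S)

/-- The law at time `t` of the walk started at `0`. -/
noncomputable def law (S : Finset G) : ℕ → G → ℝ
  | 0 => fun z => open Classical in if z = 0 then 1 else 0
  | t + 1 => fun z => 1 / 2 * law S t z + 1 / (2 * (S.card : ℝ)) * ∑ s ∈ S, law S t (z - s)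

end defs

section general

variable {G : Type} [AddCommGroup G] [Fintype G] (S : Finset G)

omit [Fintype G] in
theorem law_succ (t : ℕ) (z : G) : law S (t + 1) z =
    1 / 2 * law S t z + 1 / (2 * (S.card : ℝ)) * ∑ s ∈ S, law S t (z - s) := rfl

omit [Fintype G] in
theorem law_zero : law S 0 0 = 1 := by
  change (open Classical in if (0 : G) = 0 then (1 : ℝ) else 0) = 1
  rw [if_pos rfl]

omit [Fintype G] in
theorem law_nonneg (t : ℕ) : ∀ z, 0 ≤ law S t z := by
  induction t with
  | zero =>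
    intro z
    change 0 ≤ (open Classical in if z = 0 then (1 : ℝ) else 0)
    split_ifs <;> norm_num
  | succ t ih =>
    intro z
    rw [law_succ]
    have h1 := ih z
    have h2 : 0 ≤ ∑ s ∈ S, law S t (z - s) := Finset.sum_nonneg fun s _ => ih _
    positivity

open Classical in
theorem pow_apply (t : ℕ) : ∀ x y, (lazy S ^ t) x y = law S t (y - x) := by
  induction t with
  | zero =>
    intro x y
    rw [pow_zero, Matrix.one_apply]
    change _ = if y - x = 0 then (1 : ℝ) else 0
    simp only [sub_eq_zero, eq_comm]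
  | succ t ih =>
    intro x y
    rw [pow_succ, Matrix.mul_apply, law_succ]
    have h1 : ∀ w, (lazy S ^ t) x w * lazy S w y =
        (if w = y then 1 / 2 * law S t (y - x) else 0) +
        (if y - w ∈ S then 1 / (2 * (S.card : ℝ)) * law S t (w - x) else 0) := by
      intro w
      rw [ih, lazy, mul_add]
      congr 1
      · by_cases h : y = w
        · rw [if_pos h, if_pos h.symm, h]; ring
        · rw [if_neg h, if_neg (Ne.symm h), mul_zero]
      · by_cases h : y - w ∈ S
        · rw [if_pos h, if_pos h]; ring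
        · rw [if_neg h, if_neg h, mul_zero]
    rw [Finset.sum_congr rfl fun w _ => h1 w, Finset.sum_add_distrib, Finset.sum_ite_eq',
      if_pos (Finset.mem_univ _)]
    congr 1
    rw [← Finset.sum_filter, Finset.mul_sum]
    refine Finset.sum_nbij' (fun w => y - w) (fun s => y - s) ?_ ?_ ?_ ?_ ?_
    · intro w hw
      exact (Finset.mem_filter.1 hw).2
    · intro s hs
      refine Finset.mem_filter.2 ⟨Finset.mem_univ _, ?_⟩
      rw [sub_sub_cancel]; exact hs
    · intro w _; exact sub_sub_cancel _ _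
    · intro s _; exact sub_sub_cancel _ _
    · intro w _
      congr 2
      abel

/-- expectation under the law at time `t` -/
theorem sum_law_succ (f : G → ℝ) (t : ℕ) : ∑ z, law S (t + 1) z * f z =
    1 / 2 * ∑ z, law S t z * f z +
      1 / (2 * (S.card : ℝ)) * ∑ s ∈ S, ∑ z, law S t z * f (z + s) := by
  simp only [law_succ, add_mul, Finset.sum_add_distrib, Finset.mul_sum, Finset.sum_mul]
  congr 1
  · exact Finset.sum_congr rfl fun z _ => by ring
  · rw [Finset.sum_comm]
    refine Finset.sum_congr rfl fun s _ => ?_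
    rw [← Equiv.sum_comp (Equiv.addRight s)]
    refine Finset.sum_congr rfl fun z _ => ?_
    simp only [Equiv.coe_addRight, add_sub_cancel_right]
    ring

open Classical in
theorem sum_law (hS : S.Nonempty) (t : ℕ) : ∑ z, law S t z = 1 := by
  induction t with
  | zero =>
    change ∑ z : G, (if z = 0 then (1 : ℝ) else 0) = 1
    rw [Finset.sum_ite_eq', if_pos (Finset.mem_univ _)]
  | succ t ih =>
    have h := sum_law_succ S (fun _ => 1) t
    simp only [mul_one, ih, Finset.sum_const, nsmul_eq_mul] at h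
    rw [h]
    have : (S.card : ℝ) ≠ 0 := by
      have := hS.card_pos
      positivity
    field_simp
    norm_num

open Classical in
theorem dist_eq (t : ℕ) : dist S t = (1 / 2) * ∑ z, |law S t z - 1 / (Fintype.card G : ℝ)| := by
  have h : ∀ x : G, (1 / 2) * ∑ y, |(lazy S ^ t) x y - 1 / (Fintype.card G : ℝ)| =
      (1 / 2) * ∑ z, |law S t z - 1 / (Fintype.card G : ℝ)| := by
    intro x
    congr 1
    rw [← Equiv.sum_comp (Equiv.subRight x)
      (fun z => |law S t z - 1 / (Fintype.card G : ℝ)|)]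
    refine Finset.sum_congr rfl fun y _ => ?_
    rw [pow_apply]
    rfl
  unfold dist
  simp only [h, ciSup_const]

/-- lower bound for the distance -/
theorem dist_ge (hS : S.Nonempty) (t : ℕ) (B : Finset G) :
    ∑ z ∈ B, law S t z - B.card / (Fintype.card G : ℝ) ≤ dist S t := by
  classical
  rw [dist_eq]
  have h0 : ∑ z, (law S t z - 1 / (Fintype.card G : ℝ)) = 0 := by
    rw [Finset.sum_sub_distrib, sum_law S hS, Finset.sum_const, Finset.card_univ, nsmul_eq_mul,
      mul_one_div, div_self, sub_self]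
    exact_mod_cast Fintype.card_ne_zero
  have h1 := Finset.sum_add_sum_compl B (fun z => law S t z - 1 / (Fintype.card G : ℝ))
  have h2 := Finset.sum_add_sum_compl B (fun z => |law S t z - 1 / (Fintype.card G : ℝ)|)
  have h3 : ∑ z ∈ B, (law S t z - 1 / (Fintype.card G : ℝ)) ≤
      ∑ z ∈ B, |law S t z - 1 / (Fintype.card G : ℝ)| :=
    Finset.sum_le_sum fun z _ => le_abs_self _
  have h4 : -∑ z ∈ Bᶜ, (law S t z - 1 / (Fintype.card G : ℝ)) ≤
      ∑ z ∈ Bᶜ, |law S t z - 1 / (Fintype.card G : ℝ)| := by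
    rw [← Finset.sum_neg_distrib]
    exact Finset.sum_le_sum fun z _ => neg_le_abs _
  have h5 : ∑ z ∈ B, (law S t z - 1 / (Fintype.card G : ℝ)) =
      ∑ z ∈ B, law S t z - B.card / (Fintype.card G : ℝ) := by
    rw [Finset.sum_sub_distrib, Finset.sum_const, nsmul_eq_mul, mul_one_div]
  rw [h0] at h1
  linarith

/-- upper bound for the distance -/
theorem dist_le (hS : S.Nonempty) (t : ℕ) (c : ℝ) (hc : c ≤ 1)
    (h : ∀ z, c / (Fintype.card G : ℝ) ≤ law S t z) : dist S t ≤ 1 - c := by
  rw [dist_eq]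
  have hG : (0 : ℝ) < Fintype.card G := by exact_mod_cast Fintype.card_pos
  have h1 : ∀ z, |law S t z - 1 / (Fintype.card G : ℝ)| ≤
      law S t z - c / (Fintype.card G : ℝ) + (1 - c) / (Fintype.card G : ℝ) := by
    intro z
    have h2 := h z
    have h3 : 0 ≤ (1 - c) / (Fintype.card G : ℝ) := div_nonneg (by linarith) hG.le
    have h4 : (1 - c) / (Fintype.card G : ℝ) =
        1 / (Fintype.card G : ℝ) - c / (Fintype.card G : ℝ) := by rw [sub_div]
    rw [abs_le]
    constructor <;> linarith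
  have h2 : ∑ z, |law S t z - 1 / (Fintype.card G : ℝ)| ≤ 2 * (1 - c) := by
    refine (Finset.sum_le_sum fun z _ => h1 z).trans (le_of_eq ?_)
    rw [Finset.sum_add_distrib, Finset.sum_sub_distrib, sum_law S hS, Finset.sum_const,
      Finset.sum_const, Finset.card_univ, nsmul_eq_mul, nsmul_eq_mul,
      mul_div_cancel₀ _ hG.ne', mul_div_cancel₀ _ hG.ne']
    ring
  linarith

open Classical in
/-- the Chapman-Kolmogorov equation -/
theorem law_add (t u : ℕ) (z : G) : law S (t + u) z = ∑ w, law S t w * law S u (z - w) := by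
  have h := congrFun (congrFun (pow_add (lazy S) t u) 0) z
  rw [Matrix.mul_apply, pow_apply] at h
  simp only [pow_apply, sub_zero] at h
  exact h

/-- submultiplicativity of the separation distance -/
theorem law_ge_add (hS : S.Nonempty) {t u : ℕ} {a b : ℝ} 
    (ht : ∀ z, a / (Fintype.card G : ℝ) ≤ law S t z)
    (hu : ∀ z, b / (Fintype.card G : ℝ) ≤ law S u z) (z : G) :
    (1 - (1 - a) * (1 - b)) / (Fintype.card G : ℝ) ≤ law S (t + u) z := by
  have hG : (0 : ℝ) < Fintype.card G := by exact_mod_cast Fintype.card_pos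
  rw [law_add]
  have h1 : ∀ w, a / (Fintype.card G : ℝ) * (law S u (z - w) - b / (Fintype.card G : ℝ)) +
      law S t w * (b / (Fintype.card G : ℝ)) ≤ law S t w * law S u (z - w) := by
    intro w
    have h2 := mul_le_mul_of_nonneg_right (ht w) (sub_nonneg.2 (hu (z - w)))
    linarith
  have h2 : ∑ w, (a / (Fintype.card G : ℝ) * (law S u (z - w) - b / (Fintype.card G : ℝ)) +
      law S t w * (b / (Fintype.card G : ℝ))) =
      (1 - (1 - a) * (1 - b)) / (Fintype.card G : ℝ) := by
    have h3 : ∑ w, law S u (z - w) = 1 := by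
      rw [← sum_law S hS u]
      exact Equiv.sum_comp (Equiv.subLeft z) (fun w => law S u w)
    rw [Finset.sum_add_distrib, ← Finset.mul_sum, ← Finset.sum_mul, Finset.sum_sub_distrib,
      h3, sum_law S hS, Finset.sum_const, Finset.card_univ, nsmul_eq_mul,
      mul_div_cancel₀ _ hG.ne']
    ring
  rw [← h2]
  exact Finset.sum_le_sum fun w _ => h1 w

theorem exists_dist_le (hS : S.Nonempty) {t : ℕ} {a : ℝ} (ha : 0 < a) (ha1 : a ≤ 1)
    (ht : ∀ z, a / (Fintype.card G : ℝ) ≤ law S t z) {ε : ℝ} (hε : 0 < ε) :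
    ∃ u, dist S u ≤ ε := by
  have key : ∀ m : ℕ, ∀ z, (1 - (1 - a) ^ m) / (Fintype.card G : ℝ) ≤ law S (t * m) z := by
    intro m
    induction m with
    | zero =>
      intro z
      rw [pow_zero, sub_self, zero_div]
      exact law_nonneg _ _ _
    | succ m ih =>
      intro z
      have h := law_ge_add S hS ih ht z
      rw [Nat.mul_succ]
      refine le_trans (le_of_eq ?_) h
      rw [pow_succ]
      congr 1
      ring
  obtain ⟨m, hm⟩ := exists_pow_lt_of_lt_one hε (show 1 - a < 1 by linarith)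
  refine ⟨t * m, ?_⟩
  have h0 : 0 ≤ (1 - a) ^ m := pow_nonneg (by linarith) _
  have h := dist_le S hS (t * m) (1 - (1 - a) ^ m) (by linarith) (key m)
  linarith

theorem Tmix_le {ε : ℝ} {t : ℕ} (h : dist S t ≤ ε) : Tmix S ε ≤ t := Nat.sInf_le h

theorem le_Tmix {ε : ℝ} {m t : ℕ} (hne : dist S t ≤ ε) (h : ∀ u < m, ε < dist S u) :
    m ≤ Tmix S ε := by
  have h1 : Tmix S ε ∈ {t | dist S t ≤ ε} := Nat.sInf_mem ⟨t, hne⟩
  by_contra hlt
  push Not at hlt
  have h2 := h _ hlt
  have h3 : dist S (Tmix S ε) ≤ ε := h1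
  linarith

end general

section spectral

variable {G : Type} [AddCommGroup G] [Fintype G] (S : Finset G)

theorem exists_char {f : G → ℝ} (hf : f ≠ 0) :
    ∃ χ : AddChar G ℂ, ∑ x, (f x : ℂ) * χ x ≠ 0 := by
  classical
  by_contra hcon
  push Not at hcon
  apply hf
  funext a
  have h1 : ∑ χ : AddChar G ℂ, (∑ x, (f x : ℂ) * χ x) * χ (-a) =
      (Fintype.card G : ℂ) * (f a : ℂ) := by
    simp only [Finset.sum_mul]
    rw [Finset.sum_comm]
    have h2 : ∀ x : G, ∑ χ : AddChar G ℂ, (f x : ℂ) * χ x * χ (-a) =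
        if x = a then (Fintype.card G : ℂ) * (f a : ℂ) else 0 := by
      intro x
      have h3 : ∀ χ : AddChar G ℂ, (f x : ℂ) * χ x * χ (-a) = (f x : ℂ) * χ (x - a) := by
        intro χ
        rw [mul_assoc, ← AddChar.map_add_eq_mul, sub_eq_add_neg]
      rw [Finset.sum_congr rfl fun χ _ => h3 χ, ← Finset.mul_sum, AddChar.sum_apply_eq_ite]
      by_cases h : x = a
      · rw [if_pos h, if_pos (sub_eq_zero.2 h), h, mul_comm]
      · rw [if_neg h, if_neg (sub_ne_zero.2 h), mul_zero]
    rw [Finset.sum_congr rfl fun x _ => h2 x, Finset.sum_ite_eq', if_pos (Finset.mem_univ _)]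
  have h2 : ∑ χ : AddChar G ℂ, (∑ x, (f x : ℂ) * χ x) * χ (-a) = 0 :=
    Finset.sum_eq_zero fun χ _ => by rw [hcon χ, zero_mul]
  rw [h2] at h1
  have h3 : (Fintype.card G : ℂ) ≠ 0 := by exact_mod_cast Fintype.card_ne_zero
  have h4 := (mul_eq_zero.1 h1.symm).resolve_left h3
  exact_mod_cast h4

open Classical in
theorem lazy_mulVec (f : G → ℝ) (x : G) : (lazy S *ᵥ f) x =
    1 / 2 * f x + 1 / (2 * (S.card : ℝ)) * ∑ s ∈ S, f (x + s) := by
  rw [Matrix.mulVec, dotProduct]
  simp only [lazy, add_mul, Finset.sum_add_distrib, ite_mul, zero_mul, Finset.sum_ite_eq',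
    Finset.mem_univ, if_true]
  congr 1
  rw [← Finset.sum_filter, Finset.mul_sum]
  refine Finset.sum_nbij' (fun w => w - x) (fun s => x + s) ?_ ?_ ?_ ?_ ?_
  · intro w hw
    exact (Finset.mem_filter.1 hw).2
  · intro s hs
    refine Finset.mem_filter.2 ⟨Finset.mem_univ _, ?_⟩
    rw [add_sub_cancel_left]; exact hs
  · intro w _; exact add_sub_cancel _ _
  · intro s _; exact add_sub_cancel_left _ _
  · intro w _
    rw [add_sub_cancel]

/-- the eigenvalues are given by the characters -/
theorem eigen_le (hsym : ∀ s ∈ S, -s ∈ S)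
    (hchar : ∀ χ : AddChar G ℂ, χ ≠ 0 → (∑ s ∈ S, χ s).re ≤ (S.card : ℝ) / 2)
    (hS : S.Nonempty) {l : ℝ} {f : G → ℝ} (hf : f ≠ 0) (hf0 : ∑ x, f x = 0)
    (hl : lazy S *ᵥ f = l • f) : l ≤ 3 / 4 := by
  obtain ⟨χ, hχ⟩ := exists_char hf
  have hχ0 : χ ≠ 0 := by
    rintro rfl
    apply hχ
    simp only [AddChar.zero_apply, mul_one]
    rw [← Complex.ofReal_sum, hf0, Complex.ofReal_zero]
  have hcard : (0 : ℝ) < S.card := by exact_mod_cast hS.card_pos
  have h1 : ∑ x, (((lazy S *ᵥ f) x : ℝ) : ℂ) * χ x =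
      (1 / 2 + 1 / (2 * (S.card : ℂ)) * ∑ s ∈ S, χ s) * ∑ x, (f x : ℂ) * χ x := by
    have h2 : ∀ x, (((lazy S *ᵥ f) x : ℝ) : ℂ) * χ x =
        1 / 2 * ((f x : ℂ) * χ x) +
          1 / (2 * (S.card : ℂ)) * ∑ s ∈ S, (f (x + s) : ℂ) * χ x := by
      intro x
      rw [lazy_mulVec]
      push_cast
      rw [add_mul, mul_assoc, mul_assoc, Finset.sum_mul]
    rw [Finset.sum_congr rfl fun x _ => h2 x, Finset.sum_add_distrib, ← Finset.mul_sum,
      ← Finset.mul_sum, Finset.sum_comm, add_mul]
    congr 1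
    rw [mul_assoc]
    congr 1
    have h3 : ∀ s ∈ S, ∑ x, (f (x + s) : ℂ) * χ x = χ (-s) * ∑ x, (f x : ℂ) * χ x := by
      intro s _
      rw [← Equiv.sum_comp (Equiv.addRight s) (fun x => (f x : ℂ) * χ x), Finset.mul_sum]
      refine Finset.sum_congr rfl fun x _ => ?_
      simp only [Equiv.coe_addRight]
      rw [AddChar.map_add_eq_mul, AddChar.map_neg_eq_inv]
      have h4 : χ s ≠ 0 := by
        have := AddChar.norm_apply χ s
        intro h5
        rw [h5, norm_zero] at this
        norm_num at this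
      field_simp
    rw [Finset.sum_congr rfl h3, ← Finset.sum_mul]
    congr 1
    refine Finset.sum_nbij' (fun s => -s) (fun s => -s) (fun s hs => hsym s hs)
      (fun s hs => hsym s hs) (fun s _ => neg_neg s) (fun s _ => neg_neg s) (fun s _ => rfl)
  have h2 : ∑ x, (((lazy S *ᵥ f) x : ℝ) : ℂ) * χ x = (l : ℂ) * ∑ x, (f x : ℂ) * χ x := by
    rw [hl, Finset.mul_sum]
    refine Finset.sum_congr rfl fun x _ => ?_
    rw [Pi.smul_apply, smul_eq_mul, Complex.ofReal_mul, mul_assoc]
  rw [h1] at h2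
  have h3 := mul_right_cancel₀ hχ h2
  have h4 : l = 1 / 2 + 1 / (2 * (S.card : ℝ)) * (∑ s ∈ S, χ s).re := by
    have h5 := congrArg Complex.re h3
    rw [Complex.ofReal_re] at h5
    rw [← h5, Complex.add_re]
    have h6 : (1 / (2 * (S.card : ℂ)) : ℂ) = ((1 / (2 * (S.card : ℝ)) : ℝ) : ℂ) := by
      push_cast; ring
    have h7 : (1 / 2 : ℂ) = ((1 / 2 : ℝ) : ℂ) := by push_cast; ring
    rw [h6, Complex.re_ofReal_mul, h7, Complex.ofReal_re]
  have h5 := hchar χ hχ0
  rw [h4]
  have h6 : 1 / (2 * (S.card : ℝ)) * (∑ s ∈ S, χ s).re ≤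
      1 / (2 * (S.card : ℝ)) * ((S.card : ℝ) / 2) := by gcongr
  have h7 : 1 / (2 * (S.card : ℝ)) * ((S.card : ℝ) / 2) = 1 / 4 := by
    field_simp; norm_num
  linarith

theorem lam2_le (hsym : ∀ s ∈ S, -s ∈ S)
    (hchar : ∀ χ : AddChar G ℂ, χ ≠ 0 → (∑ s ∈ S, χ s).re ≤ (S.card : ℝ) / 2)
    (hS : S.Nonempty) : lam2 S ≤ 3 / 4 := by
  refine Real.sSup_le ?_ (by norm_num)
  rintro l ⟨f, hf, hf0, hl⟩
  exact eigen_le S hsym hchar hS hf hf0 hl

theorem Trel_le (hsym : ∀ s ∈ S, -s ∈ S)
    (hchar : ∀ χ : AddChar G ℂ, χ ≠ 0 → (∑ s ∈ S, χ s).re ≤ (S.card : ℝ) / 2)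
    (hS : S.Nonempty) : 0 < Trel S ∧ Trel S ≤ 4 := by
  have h := lam2_le S hsym hchar hS
  have h1 : (1 : ℝ) / 4 ≤ 1 - lam2 S := by linarith
  have h2 : 0 < 1 - lam2 S := by linarith
  constructor
  · exact one_div_pos.2 h2
  · unfold Trel
    rw [div_le_iff₀ h2]
    linarith

end spectral

end Pool.Agent.H313PC
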